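import Mathlib
import Pool.Agent.H.MP_acc68d_an.A

set_option autoImplicit false

namespace Pool.Agent.Results.MP_acc68d_an.Yes

open MeasureTheory Metric Set Filter Topology
open scoped ENNReal NNReal

/-- the one-sided cone `X^+(x, θ, α)` -/
def cone {n : ℕ} (x θ : EuclideanSpace ℝ (Fin n)) (α : ℝ) : Set (EuclideanSpace ℝ (Fin n)) :=
  {y | Real.sqrt (1 - α ^ 2) * ‖y - x‖ < inner ℝ (y - x) θ}

theorem result (n : ℕ) (α : ℝ) (h0 : 0 < α) (_h1 : α ≤ 1) : ∃ c : ℝ≥0, 0 < c ∧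
    ∀ (μ : Measure (EuclideanSpace ℝ (Fin n))), IsFiniteMeasure μ → (∀ x, μ {x} = 0) →
      ∀ᵐ x ∂μ, ∃ θ : EuclideanSpace ℝ (Fin n), ‖θ‖ = 1 ∧
        (c : ℝ≥0∞) < limsup (fun r : ℝ =>
          min (μ (closedBall x r ∩ cone x θ α)) (μ (closedBall x r ∩ cone x (-θ) α)) /
            μ (closedBall x r)) (𝓝[>] 0) :=
  Pool.Agent.H.MP_acc68d_an.main n α h0

end Pool.Agent.Results.MP_acc68d_an.Yes
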